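import Pool.Agent.Run7.h71.BL.Obs

set_option autoImplicit false

/-!
Lower bound of the bi-Lipschitz distortion, for manifolds of nonnegative Ricci curvature, in terms
of the volume of a unit ball.
-/

namespace Run7.h71.BL

open Pool.Agent.W555.RG Pool.Agent.TH597.BL Pool.Agent.Y469.BL

theorem final (n : ℕ) (hn : 13 ≤ n) (D : ℝ) (hD : 0 < D) :
    ∃ c v₀ : ℝ, 0 < c ∧ 0 < v₀ ∧ ∀ v : ℝ, 0 < v → v < v₀ →
      ∃ g : RMetric (Fin n → ℝ), g.IsComplete ∧ (∀ x u, 0 ≤ Ric g x u u) ∧
        ∃ A : Set (Fin n → ℝ), A.Finite ∧ (∀ x ∈ A, ∀ y ∈ A, g.dist x y ≤ D) ∧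
          (∃ p ∈ A, ENNReal.ofReal v < vol g {x | g.dist p x < 1}) ∧
          ∀ (E : Type) [NormedAddCommGroup E] [InnerProductSpace ℝ E]
            (f : (Fin n → ℝ) → E) (α β : ℝ), 0 < α →
            (∀ x ∈ A, ∀ y ∈ A, α * g.dist x y ≤ ‖f x - f y‖ ∧ ‖f x - f y‖ ≤ β * g.dist x y) →
            c * Real.log (1 / v) ^ (1 / 4 : ℝ) ≤ β / α := by
  obtain ⟨k, rfl⟩ := Nat.exists_eq_add_of_le hn
  set d : ℝ := min 1 D with hd
  have hd0 : 0 < d := lt_min one_pos hD
  have hd1 : d ≤ 1 := min_le_left _ _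
  have hdD : d ≤ D := min_le_right _ _
  set ρ : ℝ := 1 / (12 * (1 + k)) with hρ
  have hk0 : (0 : ℝ) ≤ k := Nat.cast_nonneg k
  have hρ0 : 0 < ρ := by positivity
  have hρ1 : ρ ≤ 1 / 12 := by
    rw [hρ]
    apply one_div_le_one_div_of_le (by norm_num)
    linarith
  have hMρ : (4 + k : ℝ) * ρ ≤ 1 := by
    rw [hρ, mul_one_div, div_le_one (by positivity)]
    linarith
  -- the constant
  set B0 : ℝ := 50000 ^ 2 * 128 / (d ^ 2 * (2 * ρ) ^ 2) with hB0
  have hB0p : 0 < B0 := by positivity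
  have hB01 : 1 ≤ B0 := by
    rw [hB0, one_le_div (by positivity)]
    have h1 : d ^ 2 * (2 * ρ) ^ 2 ≤ 1 * 1 :=
      mul_le_mul (by nlinarith) (by nlinarith) (by positivity) zero_le_one
    norm_num at h1 ⊢
    linarith
  set N : ℕ := 13 + k with hN
  set B : ℝ := N * (Real.log B0 + 6) with hB
  have hlogB : 0 ≤ Real.log B0 := Real.log_nonneg hB01
  have hNpos : (0 : ℝ) < N := by rw [hN]; positivity
  have hBp : 0 < B := by positivity
  refine ⟨Real.sqrt (1 / (2 * Real.sqrt B * (144 * 40000000000))), Real.exp (-(64 * B)),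
    by positivity, Real.exp_pos _, fun v hv hv0 => ?_⟩
  set t : ℝ := Real.log (1 / v) with ht
  have htB : 64 * B < t := by
    rw [ht, one_div, Real.log_inv]
    have := Real.log_lt_log hv hv0
    rw [Real.log_exp] at this
    linarith
  have ht0 : 0 < t := lt_trans (by positivity) htB
  set s : ℝ := Real.sqrt (t / B) with hs
  have hs8 : 8 < s := by
    rw [hs]
    apply Real.lt_sqrt_of_sq_lt
    rw [lt_div_iff₀ hBp]
    linarith
  obtain ⟨m, hm1, hm2⟩ : ∃ m : ℕ, (m : ℝ) < s ∧ s ≤ m + 1 := by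
    refine ⟨⌈s⌉₊ - 1, ?_, ?_⟩
    · have h1 := Nat.ceil_lt_add_one (by linarith : 0 ≤ s)
      have h2 : 1 ≤ ⌈s⌉₊ := Nat.one_le_ceil_iff.2 (by linarith)
      rw [Nat.cast_sub h2]
      push_cast
      linarith
    · have h1 := Nat.le_ceil s
      have h2 : 1 ≤ ⌈s⌉₊ := Nat.one_le_ceil_iff.2 (by linarith)
      rw [Nat.cast_sub h2]
      push_cast
      linarith
  have hm7 : 7 ≤ m := by
    have : (7 : ℝ) < m := by linarith
    exact_mod_cast this.le
  have hm7' : (7 : ℝ) ≤ m := by exact_mod_cast hm7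
  have hm0 : (0 : ℝ) < m := by linarith
  have he : (0 : ℝ) < 1 / (m : ℝ) := by positivity
  have he1 : 1 / (m : ℝ) ≤ 1 := by rw [div_le_one hm0]; linarith
  have hBm : B * (m : ℝ) ^ 2 < t := by
    have h1 : (m : ℝ) ^ 2 < s ^ 2 := by nlinarith
    rw [hs, Real.sq_sqrt (by positivity), lt_div_iff₀ hBp] at h1
    linarith
  -- the scale
  set c : ℝ := d / (50000 * m * 2 ^ (m ^ 2)) with hc
  have hc0 : 0 < c := by positivity
  have hc1 : c ≤ 1 := by
    rw [hc, div_le_one (by positivity)]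
    have h1 : (1 : ℝ) ≤ 2 ^ (m ^ 2) := one_le_pow₀ (by norm_num)
    nlinarith
  have hg := speedCont_G (1 / (m : ℝ) ^ 2) (1 / (m : ℝ)) he.ne'
  set g0 := prodM k (G (1 / (m : ℝ) ^ 2) (1 / (m : ℝ)) he.ne') with hg0
  obtain ⟨A, hAf, h0A, hAd, hAo⟩ := obstruction k m hm7 he
  refine ⟨scale c hc0.ne' g0, scale_complete c hc0 g0
    (complete_prod k _ hg (complete_G (by positivity) (by positivity))), fun x u => ?_,
    A, hAf, fun x hx y hy => ?_, ⟨0, h0A, ?_⟩, fun E _ _ f α β hα hf => ?_⟩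
  · rw [scale_Ric, hg0, Ric_prod]
    apply Ric_nonneg _ _ _ (by positivity)
    · rw [div_le_div_iff₀ (by positivity) (by norm_num)]
      nlinarith
    · rw [div_pow, one_pow, mul_one_div]
      apply div_le_div_of_nonneg_right (by norm_num) (by positivity)
  · rw [scale_dist c hc0]
    have h1 := hAd x hx y hy
    calc c * g0.dist x y ≤ c * (50000 * m * 2 ^ (m ^ 2)) := mul_le_mul_of_nonneg_left h1 hc0.le
      _ = d := by rw [hc]; field_simp
      _ ≤ D := hdD
  · refine lt_of_lt_of_le ?_ (vol_ball_ge g0 (κ := (1 / (m : ℝ)) ^ 2 / 128) (M := 4 + k) (ρ := ρ)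
      (by positivity) (by positivity) hρ0 hMρ hc0 hc1
      (fun x u hx => form_ge k (by positivity) (by
        rw [div_le_one (by positivity)]; nlinarith) he he1 x u (hx.trans hρ1))
      (fun x u hx => form_le k (by positivity) he he1 x u (hx.trans hρ1)))
    rw [ENNReal.ofReal_lt_ofReal_iff_of_nonneg hv.le]
    -- v < sqrt ((c² κ)^N) (2ρ)^N
    have e1 : Real.sqrt ((c ^ 2 * ((1 / (m : ℝ)) ^ 2 / 128)) ^ (13 + k)) * (2 * ρ) ^ (13 + k) =
        Real.sqrt ((c ^ 2 * ((1 / (m : ℝ)) ^ 2 / 128) * (2 * ρ) ^ 2) ^ N) := by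
      rw [mul_pow (c ^ 2 * ((1 / (m : ℝ)) ^ 2 / 128)), Real.sqrt_mul (by positivity), ← pow_mul,
        mul_comm 2 N, pow_mul, Real.sqrt_sq (by positivity)]
    rw [e1]
    apply Real.lt_sqrt_of_sq_lt
    set b : ℝ := c ^ 2 * ((1 / (m : ℝ)) ^ 2 / 128) * (2 * ρ) ^ 2 with hb
    have hb0 : 0 < b := by positivity
    have hbinv : 1 / b = B0 * m ^ 4 * 4 ^ (m ^ 2) := by
      rw [hb, hc, hB0]
      have h4 : (4 : ℝ) ^ (m ^ 2) = (2 ^ (m ^ 2)) ^ 2 := by
        rw [← pow_mul, mul_comm, pow_mul]; norm_num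
      rw [h4]
      field_simp
    have hlogb : Real.log (1 / b) ≤ (Real.log B0 + 6) * m ^ 2 := by
      rw [hbinv, Real.log_mul (by positivity) (by positivity),
        Real.log_mul (by positivity) (by positivity), Real.log_pow, Real.log_pow]
      have h1 : Real.log m ≤ m := (Real.log_le_sub_one_of_pos hm0).trans (by linarith)
      have h2 : Real.log 4 ≤ 2 := by
        have h3 : Real.log 4 = 2 * Real.log 2 := by
          rw [show (4 : ℝ) = 2 ^ 2 by norm_num, Real.log_pow]; norm_num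
        have := Real.log_two_lt_d9
        rw [h3]; linarith
      push_cast
      have h4 : (1 : ℝ) ≤ (m : ℝ) ^ 2 := by nlinarith
      have h5 : 4 * (m : ℝ) ≤ 4 * m ^ 2 := by nlinarith
      nlinarith
    have hvt : Real.log v = -t := by rw [ht, one_div, Real.log_inv]; ring
    have h6 : Real.log (v ^ 2) < Real.log (b ^ N) := by
      rw [Real.log_pow, Real.log_pow, hvt]
      have h7 : Real.log (1 / b) = -Real.log b := by rw [one_div, Real.log_inv]
      rw [h7] at hlogb
      have h8 : -(N * Real.log b) ≤ B * (m : ℝ) ^ 2 := by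
        rw [hB]
        calc -(N * Real.log b) = N * (-Real.log b) := by ring
          _ ≤ N * ((Real.log B0 + 6) * m ^ 2) := mul_le_mul_of_nonneg_left hlogb hNpos.le
          _ = _ := by ring
      push_cast
      linarith
    exact (Real.log_lt_log_iff (by positivity) (by positivity)).1 h6
  · have h1 := hAo E f (α * c) (β * c) (by positivity) (fun x hx y hy => by
      have := hf x hx y hy
      rw [scale_dist c hc0] at this
      refine ⟨?_, ?_⟩
      · calc α * c * g0.dist x y = α * (c * g0.dist x y) := by ring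
          _ ≤ _ := this.1
      · calc ‖f x - f y‖ ≤ β * (c * g0.dist x y) := this.2
          _ = β * c * g0.dist x y := by ring)
    rw [mul_div_mul_right _ _ hc0.ne'] at h1
    -- β ≥ 0
    have hβ : 0 ≤ β / α := by
      by_contra hneg
      push Not at hneg
      have hβ : β < 0 := by
        by_contra h
        push Not at h
        exact absurd hneg (not_lt.2 (div_nonneg h hα.le))
      -- all distances in `A` vanish, and then every map is an embedding
      have hz : ∀ x ∈ A, ∀ y ∈ A, g0.dist x y = 0 := by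
        intro x hx y hy
        have h2 := hf x hx y hy
        rw [scale_dist c hc0] at h2
        have h3 := norm_nonneg (f x - f y)
        have h4 : 0 ≤ g0.dist x y := Pool.Agent.Y469.BL.dist_nonneg g0 x y
        have h5 : 0 ≤ c * g0.dist x y := by positivity
        have h6 : c * g0.dist x y = 0 := by nlinarith [h2.1, h2.2]
        rcases mul_eq_zero.1 h6 with h | h
        · exact absurd h hc0.ne'
        · exact h
      have h2 := hAo E (fun _ => 0) 1 0 one_pos (fun x hx y hy => by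
        rw [← hg0, hz x hx y hy]
        simp)
      norm_num at h2
      linarith
    have h2 : Real.sqrt t / (2 * Real.sqrt B) ≤ m := by
      have h3 : s / 2 ≤ m := by linarith
      rw [hs, Real.sqrt_div ht0.le] at h3
      calc Real.sqrt t / (2 * Real.sqrt B) = Real.sqrt t / Real.sqrt B / 2 := by
            rw [div_div, mul_comm]
        _ ≤ _ := h3
    have h3 : Real.sqrt t / (2 * Real.sqrt B) ≤ 144 * 40000000000 * (β / α) ^ 2 := h2.trans h1
    have h4 : 1 / (2 * Real.sqrt B * (144 * 40000000000)) * Real.sqrt t ≤ (β / α) ^ 2 := by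
      rw [div_le_iff₀ (by positivity)] at h3
      rw [one_div, inv_mul_le_iff₀ (by positivity)]
      linarith
    have h5 : t ^ (1 / 4 : ℝ) = Real.sqrt (Real.sqrt t) := by
      rw [Real.sqrt_eq_rpow, Real.sqrt_eq_rpow, ← Real.rpow_mul ht0.le]
      norm_num
    rw [h5, ← Real.sqrt_mul (by positivity)]
    calc Real.sqrt (1 / (2 * Real.sqrt B * (144 * 40000000000)) * Real.sqrt t)
        ≤ Real.sqrt ((β / α) ^ 2) := Real.sqrt_le_sqrt h4
      _ = β / α := Real.sqrt_sq hβ

end Run7.h71.BL
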