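import Pool.Agent.Y469.BL.Heis

set_option autoImplicit false

/-!
The vertical versus horizontal inequality for maps on a box of the discrete Heisenberg group with
values in an inner product space (local form of `Pool.Agent.Y469.BL.heisH`; the proof is the same).
-/

namespace Run7.h71.BL

open Finset
open Pool.Agent.TH597.BL Pool.Agent.Y469.BL

variable {E : Type} [NormedAddCommGroup E] [InnerProductSpace ℝ E]

/-- The vertical versus horizontal inequality for maps into inner product spaces, local form: the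
hypotheses on the horizontal increments concern the points of a box only, and the growth of the map
on the box is a hypothesis. -/
theorem heisLoc (f : Z3 → E) {L : ℝ} (J : ℕ) (R : ℤ) (hR : R = 4 * 2 ^ J)
    (ha : ∀ p : Z3, |p.1| ≤ 2 * R + 1 → |p.2.1| ≤ 2 * R + 1 → |p.2.2| ≤ 2 * R ^ 2 + 2 * R + 1 →
      ‖f (siga p) - f p‖ ≤ L)
    (hb : ∀ p : Z3, |p.1| ≤ 2 * R + 1 → |p.2.1| ≤ 2 * R + 1 → |p.2.2| ≤ 2 * R ^ 2 + 2 * R + 1 →
      ‖f (sigb p) - f p‖ ≤ L)
    (hgr : ∀ p : Z3, |p.1| ≤ 2 * R + 1 → |p.2.1| ≤ 2 * R + 1 → |p.2.2| ≤ 2 * R ^ 2 + 2 * R + 1 →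
      ‖f p - f 0‖ ≤ 42 * R * L)
    (l : ℕ → ℝ)
    (hl : ∀ j < J, ∀ p : Z3, |p.1| ≤ 2 ^ J → |p.2.1| ≤ 2 ^ J → |p.2.2| ≤ 4 * (2 ^ J) ^ 2 →
      l j ≤ ‖f (sigc (2 ^ j) p) - f p‖ ^ 2) :
    ∑ j ∈ range J, (1 / 2 : ℝ) ^ j * l j ≤ 40000000000 * L ^ 2 := by
  set S : ℤ := 2 ^ J with hS
  have hS1 : 1 ≤ S := by
    rw [hS]
    exact one_le_pow₀ (by norm_num)
  have hR1 : 1 ≤ R := by omega
  have hRr : (1 : ℝ) ≤ R := by exact_mod_cast hR1
  have hR0 : (0 : ℝ) < R := by linarith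
  have hSr : (1 : ℝ) ≤ S := by exact_mod_cast hS1
  have hRS : (R : ℝ) = 4 * S := by rw [hR]; push_cast; ring
  set F : Z3 → E := fun p => chi R p • (f p - f 0) with hF
  have hchi : ∀ p, F p ≠ 0 → |p.1| < 2 * R ∧ |p.2.1| < 2 * R ∧ |p.2.2| < 2 * R ^ 2 := by
    intro p hp
    apply bounds_of_Nn hR1
    apply Nn_lt_of_chi hR0
    intro h0
    apply hp
    simp only [hF, h0, zero_smul]
  -- the boxes
  set T : Finset Z3 := Icc (-S) S ×ˢ (Icc (-S) S ×ˢ Icc (-(4 * S ^ 2)) (4 * S ^ 2)) with hT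
  set T' : Finset Z3 := Icc (-(2 * R + 1)) (2 * R + 1) ×ˢ (Icc (-(2 * R + 1)) (2 * R + 1) ×ˢ
    Icc (-(2 * R ^ 2 + 2 * R + 1)) (2 * R ^ 2 + 2 * R + 1)) with hT'
  have memT : ∀ p : Z3, p ∈ T ↔ |p.1| ≤ S ∧ |p.2.1| ≤ S ∧ |p.2.2| ≤ 4 * S ^ 2 := by
    intro p
    rw [hT, mem_product, mem_product, mem_Icc, mem_Icc, mem_Icc, abs_le, abs_le, abs_le]
  have memT' : ∀ p : Z3, p ∈ T' ↔ |p.1| ≤ 2 * R + 1 ∧ |p.2.1| ≤ 2 * R + 1 ∧
      |p.2.2| ≤ 2 * R ^ 2 + 2 * R + 1 := by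
    intro p
    rw [hT', mem_product, mem_product, mem_Icc, mem_Icc, mem_Icc, abs_le, abs_le, abs_le]
  have hsub : ∀ p q : Z3, F q - F p ≠ 0 → F q ≠ 0 ∨ F p ≠ 0 := by
    intro p q h
    by_contra hcon
    push Not at hcon
    apply h
    rw [hcon.1, hcon.2, sub_zero]
  have hmain := supp_ineqH F (2 * R ^ 2) (fun p hp => by
      obtain ⟨h1, h2, h3⟩ := hchi p hp
      refine ⟨?_, ?_, h3.le⟩ <;> nlinarith) J T T'
    (fun p hp => by
      obtain ⟨h1, h2, h3⟩ := (memT p).mp hp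
      rw [hR]
      refine ⟨?_, ?_, ?_⟩ <;> nlinarith)
    (fun p hp => by
      rw [memT']
      rcases hsub _ _ hp with h | h
      · obtain ⟨h1, h2, h3⟩ := hchi _ h
        simp only [siga] at h1 h2 h3
        refine ⟨?_, by omega, by omega⟩
        have := abs_sub (p.1 + 1) 1
        rw [abs_one, add_sub_cancel_right] at this
        omega
      · obtain ⟨h1, h2, h3⟩ := hchi _ h
        exact ⟨by omega, by omega, by omega⟩)
    (fun p hp => by
      rw [memT']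
      rcases hsub _ _ hp with h | h
      · obtain ⟨h1, h2, h3⟩ := hchi _ h
        simp only [sigb] at h1 h2 h3
        refine ⟨by omega, ?_, ?_⟩
        · have := abs_sub (p.2.1 + 1) 1
          rw [abs_one, add_sub_cancel_right] at this
          omega
        · have := abs_sub (p.2.2 + p.1) p.1
          rw [add_sub_cancel_right] at this
          omega
      · obtain ⟨h1, h2, h3⟩ := hchi _ h
        exact ⟨by omega, by omega, by omega⟩)
  -- pointwise upper bound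
  have hpt : ∀ (σ : Z3 → Z3), (∀ p ∈ T', ‖f (σ p) - f p‖ ≤ L) →
      (∀ p ∈ T', |Nn R (σ p) - Nn R p| ≤ 4) → ∀ p ∈ T', ‖F (σ p) - F p‖ ^ 2 ≤ (169 * L) ^ 2 := by
    intro σ h1 h2 p hp
    apply pow_le_pow_left₀ (norm_nonneg _)
    have e1 : F (σ p) - F p = chi R (σ p) • (f (σ p) - f p) +
        (chi R (σ p) - chi R p) • (f p - f 0) := by
      simp only [hF, smul_sub, sub_smul]
      abel
    rw [e1]
    obtain ⟨b1, b2, b3⟩ := (memT' p).mp hp
    have hg : ‖f p - f 0‖ ≤ 42 * R * L := hgr p b1 b2 b3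
    have hc := chi_lip hR0 (σ p) p
    have hc' : |chi R (σ p) - chi R p| ≤ 4 / R :=
      hc.trans (div_le_div_of_nonneg_right (h2 p hp) hR0.le)
    refine (norm_add_le _ _).trans ?_
    rw [norm_smul, norm_smul, Real.norm_eq_abs, Real.norm_eq_abs, abs_of_nonneg (chi_nonneg _ _)]
    calc chi R (σ p) * ‖f (σ p) - f p‖ + |chi R (σ p) - chi R p| * ‖f p - f 0‖
        ≤ 1 * L + 4 / R * (42 * R * L) :=
          add_le_add (mul_le_mul (chi_le_one _ _) (h1 p hp) (norm_nonneg _) zero_le_one)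
            (mul_le_mul hc' hg (norm_nonneg _) (by positivity))
      _ = 169 * L := by field_simp; ring
  have hNa : ∀ p ∈ T', |Nn R (siga p) - Nn R p| ≤ 4 := by
    intro p _
    have e1 : Nn R (siga p) - Nn R p = |(p.1 : ℝ) + 1| - |(p.1 : ℝ)| := by
      simp only [Nn, siga]
      push_cast
      ring
    rw [e1]
    refine (abs_abs_sub_abs_le_abs_sub _ _).trans ?_
    rw [add_sub_cancel_left, abs_one]
    norm_num
  have hNb : ∀ p ∈ T', |Nn R (sigb p) - Nn R p| ≤ 4 := by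
    intro p hp
    obtain ⟨b1, b2, b3⟩ := (memT' p).mp hp
    have e1 : Nn R (sigb p) - Nn R p = (|(p.2.1 : ℝ) + 1| - |(p.2.1 : ℝ)|)
        + (|(p.2.2 : ℝ) + p.1| - |(p.2.2 : ℝ)|) / R := by
      simp only [Nn, sigb]
      push_cast
      ring
    rw [e1]
    refine (abs_add_le _ _).trans ?_
    have h1 : |(|(p.2.1 : ℝ) + 1| - |(p.2.1 : ℝ)|)| ≤ 1 := by
      refine (abs_abs_sub_abs_le_abs_sub _ _).trans ?_
      rw [add_sub_cancel_left, abs_one]
    have h2 : |(|(p.2.2 : ℝ) + p.1| - |(p.2.2 : ℝ)|) / R| ≤ 3 := by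
      rw [abs_div, abs_of_pos hR0, div_le_iff₀ hR0]
      refine (abs_abs_sub_abs_le_abs_sub _ _).trans ?_
      rw [add_sub_cancel_left]
      have : |(p.1 : ℝ)| ≤ 2 * R + 1 := by exact_mod_cast b1
      linarith
    linarith
  have hU : ∀ (σ : Z3 → Z3), (∀ p ∈ T', ‖f (σ p) - f p‖ ≤ L) →
      (∀ p ∈ T', |Nn R (σ p) - Nn R p| ≤ 4) →
      ∑ p ∈ T', ‖F (σ p) - F p‖ ^ 2 ≤ 29963 * (S : ℝ) ^ 4 * (169 * L) ^ 2 := by
    intro σ h1 h2
    refine (Finset.sum_le_sum (hpt σ h1 h2)).trans ?_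
    rw [Finset.sum_const, nsmul_eq_mul]
    apply mul_le_mul_of_nonneg_right _ (sq_nonneg _)
    have hcard : (T'.card : ℝ) = (4 * R + 3) * ((4 * R + 3) * (4 * R ^ 2 + 4 * R + 3)) := by
      rw [hT', card_product, card_product, Int.card_Icc, Int.card_Icc]
      have h3 : ((2 * R + 1 + 1 - -(2 * R + 1)).toNat : ℤ) = 4 * R + 3 := by
        rw [Int.toNat_of_nonneg (by omega)]; ring
      have h4 : ((2 * R ^ 2 + 2 * R + 1 + 1 - -(2 * R ^ 2 + 2 * R + 1)).toNat : ℤ) =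
          4 * R ^ 2 + 4 * R + 3 := by
        rw [Int.toNat_of_nonneg (by nlinarith)]; ring
      have h3' : ((2 * R + 1 + 1 - -(2 * R + 1)).toNat : ℝ) = 4 * R + 3 := by
        exact_mod_cast h3
      have h4' : ((2 * R ^ 2 + 2 * R + 1 + 1 - -(2 * R ^ 2 + 2 * R + 1)).toNat : ℝ) =
          4 * R ^ 2 + 4 * R + 3 := by exact_mod_cast h4
      rw [Nat.cast_mul, Nat.cast_mul, h3', h4']
    rw [hcard, hRS]
    have g1 : 4 * (4 * (S : ℝ)) + 3 ≤ 19 * S := by linarith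
    have g2 : 4 * (4 * (S : ℝ)) ^ 2 + 4 * (4 * S) + 3 ≤ 83 * S ^ 2 := by nlinarith
    calc (4 * (4 * (S : ℝ)) + 3) * ((4 * (4 * S) + 3) * (4 * (4 * S) ^ 2 + 4 * (4 * S) + 3))
        ≤ (19 * S) * ((19 * S) * (83 * S ^ 2)) := by gcongr
      _ = 29963 * (S : ℝ) ^ 4 := by ring
  -- pointwise lower bound
  have hLow : ∀ j ∈ range J, 32 * (S : ℝ) ^ 4 * l j ≤ ∑ p ∈ T, ‖F (sigc (2 ^ j) p) - F p‖ ^ 2 := by
    intro j hj
    have hjJ := mem_range.mp hj
    by_cases hlj : l j ≤ 0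
    · have h1 : 32 * (S : ℝ) ^ 4 * l j ≤ 0 := mul_nonpos_of_nonneg_of_nonpos (by positivity) hlj
      exact h1.trans (Finset.sum_nonneg fun _ _ => by positivity)
    push Not at hlj
    have hterm : ∀ p ∈ T, l j ≤ ‖F (sigc (2 ^ j) p) - F p‖ ^ 2 := by
      intro p hp
      obtain ⟨b1, b2, b3⟩ := (memT p).mp hp
      have c1 : |(p.1 : ℝ)| ≤ S := by exact_mod_cast b1
      have c2 : |(p.2.1 : ℝ)| ≤ S := by exact_mod_cast b2
      have c3 : |(p.2.2 : ℝ)| ≤ 4 * S ^ 2 := by exact_mod_cast b3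
      have h2j : (2 : ℝ) ^ j ≤ 4 * S ^ 2 := by
        have h3 : (2 : ℝ) ^ j ≤ S := by
          rw [hS]
          push_cast
          exact pow_le_pow_right₀ (by norm_num) hjJ.le
        nlinarith
      have n1 : Nn R p ≤ R := by
        unfold Nn
        have : |(p.2.2 : ℝ)| / R ≤ S := by
          rw [div_le_iff₀ hR0, hRS]
          nlinarith
        rw [hRS] at this ⊢
        linarith
      have n2 : Nn R (sigc (2 ^ j) p) ≤ R := by
        unfold Nn sigc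
        have : |((p.2.2 + 2 ^ j : ℤ) : ℝ)| / R ≤ 2 * S := by
          rw [div_le_iff₀ hR0, hRS]
          push_cast
          have h4 := abs_add_le (p.2.2 : ℝ) (2 ^ j)
          rw [abs_of_pos (by positivity : (0 : ℝ) < 2 ^ j)] at h4
          nlinarith
        show |(p.1 : ℝ)| + |(p.2.1 : ℝ)| + |((p.2.2 + 2 ^ j : ℤ) : ℝ)| / R ≤ R
        rw [hRS] at this ⊢
        linarith
      have e1 : F (sigc (2 ^ j) p) - F p = f (sigc (2 ^ j) p) - f p := by
        simp only [hF, chi_eq_one hR0 n1, chi_eq_one hR0 n2, one_smul]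
        abel
      rw [e1]
      exact hl j hjJ p b1 b2 b3
    have hsum := Finset.sum_le_sum hterm
    rw [Finset.sum_const, nsmul_eq_mul] at hsum
    refine le_trans ?_ hsum
    apply mul_le_mul_of_nonneg_right _ hlj.le
    have hcard : (T.card : ℝ) = (2 * S + 1) * ((2 * S + 1) * (8 * S ^ 2 + 1)) := by
      rw [hT, card_product, card_product, Int.card_Icc, Int.card_Icc]
      have h3 : ((S + 1 - -S).toNat : ℤ) = 2 * S + 1 := by
        rw [Int.toNat_of_nonneg (by omega)]; ring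
      have h4 : ((4 * S ^ 2 + 1 - -(4 * S ^ 2)).toNat : ℤ) = 8 * S ^ 2 + 1 := by
        rw [Int.toNat_of_nonneg (by nlinarith)]; ring
      have h3' : ((S + 1 - -S).toNat : ℝ) = 2 * S + 1 := by exact_mod_cast h3
      have h4' : ((4 * S ^ 2 + 1 - -(4 * S ^ 2)).toNat : ℝ) = 8 * S ^ 2 + 1 := by
        exact_mod_cast h4
      rw [Nat.cast_mul, Nat.cast_mul, h3', h4']
    rw [hcard]
    have g1 : 2 * (S : ℝ) ≤ 2 * S + 1 := by linarith
    have g2 : 8 * (S : ℝ) ^ 2 ≤ 8 * S ^ 2 + 1 := by linarith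
    calc 32 * (S : ℝ) ^ 4 = (2 * S) * ((2 * S) * (8 * S ^ 2)) := by ring
      _ ≤ _ := by gcongr
  have hfin : 32 * (S : ℝ) ^ 4 * ∑ j ∈ range J, (1 / 2 : ℝ) ^ j * l j ≤
      576 * (29963 * (S : ℝ) ^ 4 * (169 * L) ^ 2 + 29963 * (S : ℝ) ^ 4 * (169 * L) ^ 2) := by
    calc 32 * (S : ℝ) ^ 4 * ∑ j ∈ range J, (1 / 2 : ℝ) ^ j * l j
        = ∑ j ∈ range J, (1 / 2 : ℝ) ^ j * (32 * (S : ℝ) ^ 4 * l j) := by
          rw [mul_sum]
          refine Finset.sum_congr rfl fun j _ => ?_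
          ring
      _ ≤ ∑ j ∈ range J, (1 / 2 : ℝ) ^ j * ∑ p ∈ T, ‖F (sigc (2 ^ j) p) - F p‖ ^ 2 :=
          Finset.sum_le_sum fun j hj => mul_le_mul_of_nonneg_left (hLow j hj) (by positivity)
      _ ≤ _ := hmain
      _ ≤ _ := by
          have h1 := hU siga (fun p hp => by
            obtain ⟨b1, b2, b3⟩ := (memT' p).mp hp
            exact ha p b1 b2 b3) hNa
          have h2 := hU sigb (fun p hp => by
            obtain ⟨b1, b2, b3⟩ := (memT' p).mp hp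
            exact hb p b1 b2 b3) hNb
          linarith
  have hS4 : 0 < (S : ℝ) ^ 4 := by positivity
  have h9 : (S : ℝ) ^ 4 * (32 * ∑ j ∈ range J, (1 / 2 : ℝ) ^ j * l j) ≤
      (S : ℝ) ^ 4 * (32 * (40000000000 * L ^ 2)) := by nlinarith [sq_nonneg L]
  have h10 := le_of_mul_le_mul_left h9 hS4
  linarith

end Run7.h71.BL
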