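import Pool.Agent.Y469.BL.Dist

set_option autoImplicit false

/-!
The distance of a Riemannian metric on a real vector space: symmetry and triangle inequality;
rescaling of a metric; Riemannian volume and a lower bound of it.
-/

namespace Run7.h71.BL

open Pool.Agent.W555.RG Pool.Agent.Y469.BL
open scoped ContDiff Topology
open Set

section Triangle

variable {V : Type} [NormedAddCommGroup V] [NormedSpace ℝ V]

/-- Speed of a reparametrised curve. -/
theorem speed_comp (g : RMetric V) {γ : ℝ → V} (hγ : ContDiff ℝ 1 γ) {φ : ℝ → ℝ} {c t : ℝ}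
    (hφ : HasDerivAt φ c t) :
    Real.sqrt (g.form (γ (φ t)) (deriv (fun s => γ (φ s)) t) (deriv (fun s => γ (φ s)) t)) =
      Real.sqrt (g.form (γ (φ t)) (deriv γ (φ t)) (deriv γ (φ t))) * |c| := by
  have a1 : HasDerivAt γ (deriv γ (φ t)) (φ t) :=
    ((hγ.differentiable (by norm_num)).differentiableAt (x := φ t)).hasDerivAt
  have a2 : HasDerivAt (fun s => γ (φ s)) (c • deriv γ (φ t)) t := a1.scomp t hφ
  rw [a2.deriv]
  simp only [map_smul, LinearMap.smul_apply, smul_eq_mul]
  have e : c * (c * g.form (γ (φ t)) (deriv γ (φ t)) (deriv γ (φ t))) =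
      g.form (γ (φ t)) (deriv γ (φ t)) (deriv γ (φ t)) * c ^ 2 := by ring
  rw [e, Real.sqrt_mul' _ (sq_nonneg c), Real.sqrt_sq_eq_abs]

theorem dist_symm (g : RMetric V) (x y : V) : g.dist x y = g.dist y x := by
  suffices h : ∀ x y : V, g.dist x y ≤ g.dist y x from le_antisymm (h x y) (h y x)
  intro x y
  apply le_dist
  intro γ hγ h0 h1
  have hφ : ContDiff ℝ 1 (fun t : ℝ => 1 - t) := by fun_prop
  have hc : ContDiff ℝ 1 (fun t : ℝ => γ (1 - t)) := hγ.comp hφ
  have h := Pool.Agent.Y469.BL.dist_le g hc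
  simp only [sub_zero, sub_self, h0, h1] at h
  refine h.trans (le_of_eq ?_)
  unfold RMetric.length
  have e1 : ∀ t : ℝ, Real.sqrt (g.form (γ (1 - t)) (deriv (fun s => γ (1 - s)) t)
      (deriv (fun s => γ (1 - s)) t)) =
      (fun s => Real.sqrt (g.form (γ s) (deriv γ s) (deriv γ s))) (1 - t) := by
    intro t
    have hd : HasDerivAt (fun t : ℝ => 1 - t) (-1) t := by
      simpa using (hasDerivAt_id t).const_sub 1
    have := speed_comp g hγ hd
    simpa using this
  simp only [e1]
  rw [intervalIntegral.integral_comp_sub_left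
    (fun s => Real.sqrt (g.form (γ s) (deriv γ s) (deriv γ s))) 1]
  simp

/-- The length of a curve, computed with a monotone reparametrisation. -/
theorem length_reparam (g : RMetric V) (hg : SpeedCont g) {γ : ℝ → V} (hγ : ContDiff ℝ 1 γ)
    {φ : ℝ → ℝ} (hφ : ContDiff ℝ 1 φ) (hm : Monotone φ) (a b : ℝ) (h0 : φ a = 0) (h1 : φ b = 1) :
    ∫ t in a..b, Real.sqrt (g.form (γ (φ t)) (deriv (fun s => γ (φ s)) t)
      (deriv (fun s => γ (φ s)) t)) = g.length γ := by
  have hd : ∀ t, HasDerivAt φ (deriv φ t) t := fun t =>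
    ((hφ.differentiable (by norm_num)).differentiableAt (x := t)).hasDerivAt
  have e1 : ∀ t : ℝ, Real.sqrt (g.form (γ (φ t)) (deriv (fun s => γ (φ s)) t)
      (deriv (fun s => γ (φ s)) t)) =
      ((fun s => Real.sqrt (g.form (γ s) (deriv γ s) (deriv γ s))) ∘ φ) t * deriv φ t := by
    intro t
    rw [speed_comp g hγ (hd t), abs_of_nonneg hm.deriv_nonneg]
    rfl
  simp only [e1]
  have hcc : Continuous (fun s => Real.sqrt (g.form (γ s) (deriv γ s) (deriv γ s))) :=
    Real.continuous_sqrt.comp (hg γ hγ)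
  rw [intervalIntegral.integral_comp_mul_deriv (fun x _ => hd x)
    (hφ.continuous_deriv le_rfl).continuousOn hcc, h0, h1]
  rfl

theorem dist_triangle' (g : RMetric V) (hg : SpeedCont g) (x y z : V) :
    g.dist x z ≤ g.dist x y + g.dist y z := by
  have key : ∀ γ₁ : ℝ → V, ContDiff ℝ 1 γ₁ → γ₁ 0 = x → γ₁ 1 = y → ∀ γ₂ : ℝ → V,
      ContDiff ℝ 1 γ₂ → γ₂ 0 = y → γ₂ 1 = z → g.dist x z ≤ g.length γ₁ + g.length γ₂ := by
    intro γ₁ hγ₁ h10 h11 γ₂ hγ₂ h20 h21
    set φ : ℝ → ℝ := fun t => Real.smoothTransition (2 * t) with hφ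
    set ψ : ℝ → ℝ := fun t => Real.smoothTransition (2 * t - 1) with hψ
    have cφ : ContDiff ℝ 1 φ := Real.smoothTransition.contDiff.comp (by fun_prop)
    have cψ : ContDiff ℝ 1 ψ := Real.smoothTransition.contDiff.comp (by fun_prop)
    have mT : Monotone Real.smoothTransition := Real.smoothTransition.monotone
    have mφ : Monotone φ := fun s t h => mT (by linarith)
    have mψ : Monotone ψ := fun s t h => mT (by linarith)
    set γ : ℝ → V := fun t => γ₁ (φ t) + γ₂ (ψ t) - y with hγdef
    have cγ : ContDiff ℝ 1 γ := ((hγ₁.comp cφ).add (hγ₂.comp cψ)).sub contDiff_const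
    have e0 : γ 0 = x := by
      simp only [hγdef, hφ, hψ]
      rw [Real.smoothTransition.zero_of_nonpos (by norm_num),
        Real.smoothTransition.zero_of_nonpos (by norm_num), h10, h20]
      abel
    have e1 : γ 1 = z := by
      simp only [hγdef, hφ, hψ]
      rw [Real.smoothTransition.one_of_one_le (by norm_num),
        Real.smoothTransition.one_of_one_le (by norm_num), h11, h21]
      abel
    have hle := Pool.Agent.Y469.BL.dist_le g cγ
    rw [e0, e1] at hle
    refine hle.trans (le_of_eq ?_)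
    have hcont := Real.continuous_sqrt.comp (hg γ cγ)
    have hsplit : g.length γ = (∫ t in (0 : ℝ)..(1 / 2),
        Real.sqrt (g.form (γ t) (deriv γ t) (deriv γ t))) +
        ∫ t in (1 / 2 : ℝ)..1, Real.sqrt (g.form (γ t) (deriv γ t) (deriv γ t)) := by
      unfold RMetric.length
      exact (intervalIntegral.integral_add_adjacent_intervals
        (hcont.intervalIntegrable _ _) (hcont.intervalIntegrable _ _)).symm
    have q1 : ∀ t < (1 / 2 : ℝ), γ t = γ₁ (φ t) ∧ deriv γ t = deriv (fun s => γ₁ (φ s)) t := by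
      intro t ht
      have hev : γ =ᶠ[𝓝 t] fun s => γ₁ (φ s) := by
        filter_upwards [Iio_mem_nhds ht] with s hs
        simp only [hγdef, hψ]
        rw [Real.smoothTransition.zero_of_nonpos (by linarith [mem_Iio.1 hs]), h20]
        abel
      exact ⟨hev.eq_of_nhds, hev.deriv_eq⟩
    have q2 : ∀ t > (1 / 2 : ℝ), γ t = γ₂ (ψ t) ∧ deriv γ t = deriv (fun s => γ₂ (ψ s)) t := by
      intro t ht
      have hev : γ =ᶠ[𝓝 t] fun s => γ₂ (ψ s) := by
        filter_upwards [Ioi_mem_nhds ht] with s hs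
        simp only [hγdef, hφ]
        rw [Real.smoothTransition.one_of_one_le (by linarith [mem_Ioi.1 hs]), h11]
        abel
      exact ⟨hev.eq_of_nhds, hev.deriv_eq⟩
    have i1 : (∫ t in (0 : ℝ)..(1 / 2), Real.sqrt (g.form (γ t) (deriv γ t) (deriv γ t))) =
        ∫ t in (0 : ℝ)..(1 / 2), Real.sqrt (g.form (γ₁ (φ t)) (deriv (fun s => γ₁ (φ s)) t)
          (deriv (fun s => γ₁ (φ s)) t)) := by
      rw [intervalIntegral.integral_of_le (by norm_num),
        intervalIntegral.integral_of_le (by norm_num),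
        MeasureTheory.integral_Ioc_eq_integral_Ioo, MeasureTheory.integral_Ioc_eq_integral_Ioo]
      refine MeasureTheory.setIntegral_congr_fun measurableSet_Ioo fun t ht => ?_
      obtain ⟨a1, a2⟩ := q1 t ht.2
      simp only [a1, a2]
    have i2 : (∫ t in (1 / 2 : ℝ)..1, Real.sqrt (g.form (γ t) (deriv γ t) (deriv γ t))) =
        ∫ t in (1 / 2 : ℝ)..1, Real.sqrt (g.form (γ₂ (ψ t)) (deriv (fun s => γ₂ (ψ s)) t)
          (deriv (fun s => γ₂ (ψ s)) t)) := by
      rw [intervalIntegral.integral_of_le (by norm_num),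
        intervalIntegral.integral_of_le (by norm_num),
        MeasureTheory.integral_Ioc_eq_integral_Ioo, MeasureTheory.integral_Ioc_eq_integral_Ioo]
      refine MeasureTheory.setIntegral_congr_fun measurableSet_Ioo fun t ht => ?_
      obtain ⟨a1, a2⟩ := q2 t ht.1
      simp only [a1, a2]
    rw [hsplit, i1, i2, length_reparam g hg hγ₁ cφ mφ 0 (1 / 2)
        (Real.smoothTransition.zero_of_nonpos (by norm_num))
        (Real.smoothTransition.one_of_one_le (by norm_num)),
      length_reparam g hg hγ₂ cψ mψ (1 / 2) 1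
        (Real.smoothTransition.zero_of_nonpos (by norm_num))
        (Real.smoothTransition.one_of_one_le (by norm_num))]
  have h1 : ∀ γ₁ : ℝ → V, ContDiff ℝ 1 γ₁ → γ₁ 0 = x → γ₁ 1 = y →
      g.dist x z - g.length γ₁ ≤ g.dist y z := by
    intro γ₁ a1 a2 a3
    apply le_dist
    intro γ₂ b1 b2 b3
    have := key γ₁ a1 a2 a3 γ₂ b1 b2 b3
    linarith
  have h2 : g.dist x z - g.dist y z ≤ g.dist x y := by
    apply le_dist
    intro γ₁ a1 a2 a3
    have := h1 γ₁ a1 a2 a3
    linarith
  linarith

theorem dist_self' (g : RMetric V) (x : V) : g.dist x x = 0 := by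
  apply le_antisymm _ (Pool.Agent.Y469.BL.dist_nonneg g x x)
  have h := Pool.Agent.Y469.BL.dist_le g (γ := fun _ => x) contDiff_const
  refine h.trans (le_of_eq ?_)
  unfold RMetric.length
  simp

end Triangle

section Scale

variable {V : Type} [NormedAddCommGroup V] [NormedSpace ℝ V]

/-- The metric `c² g`. -/
noncomputable def scale (c : ℝ) (hc : c ≠ 0) (g : RMetric V) : RMetric V where
  form := fun x => c ^ 2 • g.form x
  symm' := by
    intro x u v
    rw [LinearMap.smul_apply, LinearMap.smul_apply, LinearMap.smul_apply, LinearMap.smul_apply,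
      g.symm' x u v]
  pos' := by
    intro x u hu
    rw [LinearMap.smul_apply, LinearMap.smul_apply, smul_eq_mul]
    exact mul_pos (by positivity) (g.pos' x u hu)
  smooth' := by
    intro u v
    simp only [LinearMap.smul_apply, smul_eq_mul]
    exact contDiff_const.mul (g.smooth' u v)

theorem scale_form (c : ℝ) (hc : c ≠ 0) (g : RMetric V) (x u v : V) :
    (scale c hc g).form x u v = c ^ 2 * g.form x u v := rfl

theorem scale_Gam (c : ℝ) (hc : c ≠ 0) (g : RMetric V) (x u v : V) :
    (scale c hc g).Gam x u v = g.Gam x u v := by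
  have hd : ∀ a b : V, DifferentiableAt ℝ (fun y => g.form y a b) x := fun a b =>
    (g.smooth' a b).contDiffAt.differentiableAt (by norm_num)
  have e : ∀ a b d : V, fderiv ℝ (fun y => (scale c hc g).form y a b) x d =
      c ^ 2 * fderiv ℝ (fun y => g.form y a b) x d := by
    intro a b d
    have : (fun y => (scale c hc g).form y a b) = fun y => c ^ 2 • g.form y a b := rfl
    rw [this, fderiv_fun_const_smul (hd a b)]
    rfl
  unfold RMetric.Gam
  congr 1
  funext z
  apply propext
  constructor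
  · intro h w
    have := h w
    rw [scale_form, e, e, e] at this
    have h2 : c ^ 2 * (2 * g.form x z w) = c ^ 2 *
        (fderiv ℝ (fun y => g.form y v w) x u + fderiv ℝ (fun y => g.form y u w) x v
        - fderiv ℝ (fun y => g.form y u v) x w) := by linarith
    exact mul_left_cancel₀ (by positivity) h2
  · intro h w
    rw [scale_form, e, e, e]
    have := h w
    linear_combination c ^ 2 * this

theorem scale_curv (c : ℝ) (hc : c ≠ 0) (g : RMetric V) (x u v w : V) :
    (scale c hc g).curv x u v w = g.curv x u v w := by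
  unfold RMetric.curv
  simp only [scale_Gam]

theorem scale_Ric {n : ℕ} (c : ℝ) (hc : c ≠ 0) (g : RMetric (Fin n → ℝ)) (x u v : Fin n → ℝ) :
    Pool.Agent.TH597.BL.Ric (scale c hc g) x u v = Pool.Agent.TH597.BL.Ric g x u v := by
  unfold Pool.Agent.TH597.BL.Ric
  simp only [scale_curv]

theorem scale_length (c : ℝ) (hc : 0 < c) (g : RMetric V) (γ : ℝ → V) :
    (scale c hc.ne' g).length γ = c * g.length γ := by
  unfold RMetric.length
  rw [← intervalIntegral.integral_const_mul]
  refine intervalIntegral.integral_congr fun s _ => ?_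
  simp only [scale_form]
  rw [Real.sqrt_mul (sq_nonneg c), Real.sqrt_sq hc.le]

theorem scale_dist (c : ℝ) (hc : 0 < c) (g : RMetric V) (x y : V) :
    (scale c hc.ne' g).dist x y = c * g.dist x y := by
  apply le_antisymm
  · have h : (scale c hc.ne' g).dist x y / c ≤ g.dist x y := by
      apply le_dist
      rintro γ hγ rfl rfl
      rw [div_le_iff₀ hc, mul_comm]
      have := Pool.Agent.Y469.BL.dist_le (scale c hc.ne' g) hγ
      rwa [scale_length c hc] at this
    rwa [div_le_iff₀ hc, mul_comm] at h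
  · apply le_dist
    rintro γ hγ rfl rfl
    rw [scale_length c hc]
    exact mul_le_mul_of_nonneg_left (Pool.Agent.Y469.BL.dist_le g hγ) hc.le

theorem scale_complete (c : ℝ) (hc : 0 < c) (g : RMetric V) (hg : g.IsComplete) :
    (scale c hc.ne' g).IsComplete := by
  intro s hs
  obtain ⟨q, hq⟩ := hg s (fun ε hε => by
    obtain ⟨N, hN⟩ := hs (c * ε) (by positivity)
    refine ⟨N, fun m n hm hn => ?_⟩
    have := hN m n hm hn
    rw [scale_dist c hc] at this
    exact lt_of_mul_lt_mul_left this hc.le)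
  refine ⟨q, ?_⟩
  have := hq.const_mul c
  simpa only [scale_dist c hc, mul_zero] using this

end Scale

section Volume

open MeasureTheory

/-- The Gram matrix of the metric at `x` in the standard basis. -/
noncomputable def gram {n : ℕ} (g : RMetric (Fin n → ℝ)) (x : Fin n → ℝ) :
    Matrix (Fin n) (Fin n) ℝ :=
  Matrix.of fun i j => g.form x (Pi.single i 1) (Pi.single j 1)

/-- The Riemannian volume of a set: the integral of `√det(g_ij)`. -/
noncomputable def vol {n : ℕ} (g : RMetric (Fin n → ℝ)) (s : Set (Fin n → ℝ)) : ENNReal :=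
  ∫⁻ x in s, ENNReal.ofReal (Real.sqrt (gram g x).det)

theorem gram_quad {n : ℕ} (g : RMetric (Fin n → ℝ)) (x u : Fin n → ℝ) :
    u ⬝ᵥ ((gram g x).mulVec u) = g.form x u u := by
  have hu : u = ∑ i, u i • (Pi.single i (1 : ℝ) : Fin n → ℝ) := by
    funext j
    simp [Finset.sum_apply, Pi.single_apply]
  conv_rhs => rw [hu]
  simp only [map_sum, LinearMap.sum_apply, map_smul, LinearMap.smul_apply, smul_eq_mul]
  unfold dotProduct Matrix.mulVec dotProduct gram
  simp only [Matrix.of_apply, Finset.mul_sum]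
  rw [Finset.sum_comm]
  refine Finset.sum_congr rfl fun i _ => Finset.sum_congr rfl fun j _ => ?_
  ring

/-- Lower bound of a determinant. -/
theorem det_ge {n : ℕ} (A : Matrix (Fin n) (Fin n) ℝ) (hA : A.IsHermitian) {κ : ℝ} (hκ : 0 ≤ κ)
    (h : ∀ u : Fin n → ℝ, κ * ∑ i, u i ^ 2 ≤ u ⬝ᵥ (A.mulVec u)) : κ ^ n ≤ A.det := by
  have e1 : ∀ i, κ ≤ hA.eigenvalues i := by
    intro i
    have h1 := h (hA.eigenvectorBasis i)
    have h2 := hA.eigenvalues_eq i
    have h3 : ∑ j, (hA.eigenvectorBasis i) j ^ 2 = 1 := by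
      have := hA.eigenvectorBasis.orthonormal.1 i
      rw [EuclideanSpace.norm_eq] at this
      have h4 := congrArg (fun t => t ^ 2) this
      simp only [one_pow] at h4
      rw [Real.sq_sqrt (Finset.sum_nonneg fun _ _ => by positivity)] at h4
      simpa using h4
    rw [h3, mul_one] at h1
    rw [h2]
    simpa using h1
  rw [hA.det_eq_prod_eigenvalues]
  calc κ ^ n = ∏ _i : Fin n, κ := by simp
    _ ≤ ∏ i, hA.eigenvalues i := Finset.prod_le_prod (fun _ _ => hκ) fun i _ => e1 i
    _ = _ := by simp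

theorem gram_herm {n : ℕ} (g : RMetric (Fin n → ℝ)) (x : Fin n → ℝ) : (gram g x).IsHermitian := by
  ext i j
  simp only [Matrix.conjTranspose_apply, gram, Matrix.of_apply, star_trivial]
  exact g.symm' x _ _

/-- Lower bound of the volume of the unit ball about the origin. -/
theorem vol_ball_ge {n : ℕ} (g : RMetric (Fin n → ℝ)) {κ M ρ c : ℝ} (hκ : 0 ≤ κ)
    (hM : 0 ≤ M) (hρ : 0 < ρ) (hMρ : M * ρ ≤ 1) (hc : 0 < c) (hc1 : c ≤ 1)
    (hlow : ∀ x u : Fin n → ℝ, ‖x‖ ≤ ρ → κ * ∑ i, u i ^ 2 ≤ g.form x u u)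
    (hup : ∀ x u : Fin n → ℝ, ‖x‖ ≤ ρ → g.form x u u ≤ M ^ 2 * ‖u‖ ^ 2) :
    ENNReal.ofReal (Real.sqrt ((c ^ 2 * κ) ^ n) * (2 * ρ) ^ n) ≤
      vol (scale c hc.ne' g) {x | (scale c hc.ne' g).dist 0 x < 1} := by
  have hsub : Metric.ball (0 : Fin n → ℝ) ρ ⊆ {x | (scale c hc.ne' g).dist 0 x < 1} := by
    intro x hx
    rw [mem_ball_zero_iff] at hx
    show (scale c hc.ne' g).dist 0 x < 1
    rw [scale_dist c hc]
    have hγ : ContDiff ℝ 1 (fun t : ℝ => t • x) := by fun_prop
    have h := Pool.Agent.Y469.BL.dist_le g hγ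
    simp only [zero_smul, one_smul] at h
    have hd : ∀ t : ℝ, deriv (fun t : ℝ => t • x) t = x := by
      intro t
      have : HasDerivAt (fun t : ℝ => t • x) ((1 : ℝ) • x) t := (hasDerivAt_id t).smul_const x
      rw [this.deriv, one_smul]
    have hl : g.length (fun t : ℝ => t • x) ≤ M * ‖x‖ := by
      unfold RMetric.length
      simp only [hd]
      have hcont : Continuous fun t : ℝ => g.form (t • x) x x :=
        (g.smooth' x x).continuous.comp (by fun_prop)
      calc ∫ t in (0 : ℝ)..1, Real.sqrt (g.form (t • x) x x)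
          ≤ ∫ _ in (0 : ℝ)..1, M * ‖x‖ := by
            apply intervalIntegral.integral_mono_on (by norm_num)
            · exact (Real.continuous_sqrt.comp hcont).intervalIntegrable _ _
            · exact continuous_const.intervalIntegrable _ _
            · intro t ht
              rw [Real.sqrt_le_left (by positivity)]
              have hn : ‖t • x‖ ≤ ρ := by
                rw [norm_smul, Real.norm_eq_abs, abs_of_nonneg ht.1]
                have := mul_le_mul ht.2 hx.le (norm_nonneg _) zero_le_one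
                linarith
              have := hup (t • x) x hn
              nlinarith
        _ = M * ‖x‖ := by simp
    have h3 : g.dist 0 x < 1 := by
      rcases hM.eq_or_lt with h0 | h0
      · rw [← h0, zero_mul] at hl
        linarith
      · have : M * ‖x‖ < M * ρ := mul_lt_mul_of_pos_left hx h0
        linarith
    have h4 : 0 ≤ g.dist 0 x := Pool.Agent.Y469.BL.dist_nonneg g _ _
    nlinarith
  have hpt : ∀ x ∈ Metric.ball (0 : Fin n → ℝ) ρ,
      ENNReal.ofReal (Real.sqrt ((c ^ 2 * κ) ^ n)) ≤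
        ENNReal.ofReal (Real.sqrt (gram (scale c hc.ne' g) x).det) := by
    intro x hx
    rw [mem_ball_zero_iff] at hx
    apply ENNReal.ofReal_le_ofReal
    apply Real.sqrt_le_sqrt
    apply det_ge _ (gram_herm _ x) (by positivity)
    intro u
    rw [gram_quad, scale_form, mul_assoc]
    exact mul_le_mul_of_nonneg_left (hlow x u hx.le) (sq_nonneg c)
  calc ENNReal.ofReal (Real.sqrt ((c ^ 2 * κ) ^ n) * (2 * ρ) ^ n)
      = ENNReal.ofReal (Real.sqrt ((c ^ 2 * κ) ^ n)) * volume (Metric.ball (0 : Fin n → ℝ) ρ) := by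
        rw [Real.volume_pi_ball _ hρ, ENNReal.ofReal_mul (Real.sqrt_nonneg _), Fintype.card_fin]
    _ = ∫⁻ _ in Metric.ball (0 : Fin n → ℝ) ρ, ENNReal.ofReal (Real.sqrt ((c ^ 2 * κ) ^ n)) := by
        rw [setLIntegral_const]
    _ ≤ ∫⁻ x in Metric.ball (0 : Fin n → ℝ) ρ,
        ENNReal.ofReal (Real.sqrt (gram (scale c hc.ne' g) x).det) :=
        setLIntegral_mono' measurableSet_ball hpt
    _ ≤ _ := lintegral_mono_set hsub

end Volume

end Run7.h71.BL
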