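import Pool.Agent.Y469.BL.Main
import Pool.Agent.Run7.h71.BL.Loc
import Pool.Agent.Run7.h71.BL.Met

set_option autoImplicit false

/-!
Quantitative local form of the obstruction: a finite subset of the orbit of the origin, of
controlled diameter, without embeddings of small distortion; bounds of the metric near the origin.
-/

namespace Run7.h71.BL

open Pool.Agent.W555.RG Pool.Agent.TH597.BL Pool.Agent.Y469.BL
open scoped ContDiff Topology
open Finset

/-- Lower bound of the metric near the origin. -/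
theorem gf_ge {a e : ℝ} (ha : 0 ≤ a) (ha1 : a ≤ 1) (he : 0 < e) (he1 : e ≤ 1) (x u : V)
    (hx : ‖x‖ ≤ 1 / 12) : e ^ 2 / 128 * ∑ i, u i ^ 2 ≤ gf a e x u u := by
  have hw1 := one_le_w x
  have hwp := w_pos x
  have hw2 : w x ≤ 2 := by
    have := dS_le_norm x
    unfold w
    nlinarith [norm_nonneg x]
  have hH : 1 / 4 ≤ H a (w x) := by
    unfold H
    rw [Real.rpow_neg hwp.le, one_div]
    apply inv_anti₀ (by positivity)
    calc (w x) ^ (2 * a) ≤ (w x) ^ (2 : ℝ) := Real.rpow_le_rpow_of_exponent_le hw1 (by linarith)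
      _ = (w x) ^ 2 := Real.rpow_two _
      _ ≤ 4 := by nlinarith
  have hK : e ^ 2 / 64 ≤ K a e (w x) := by
    unfold K
    rw [div_eq_mul_inv]
    apply mul_le_mul_of_nonneg_left _ (sq_nonneg e)
    rw [Real.rpow_neg hwp.le]
    apply inv_anti₀ (by positivity)
    calc (w x) ^ (2 + 4 * a) ≤ (w x) ^ (6 : ℝ) := Real.rpow_le_rpow_of_exponent_le hw1 (by linarith)
      _ ≤ 2 ^ (6 : ℝ) := Real.rpow_le_rpow hwp.le hw2 (by norm_num)
      _ = 64 := by norm_num
  have hK1 : K a e (w x) ≤ 1 := by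
    unfold K
    have h1 : (w x) ^ (-(2 + 4 * a)) ≤ 1 :=
      Real.rpow_le_one_of_one_le_of_nonpos hw1 (by linarith)
    have h2 : e ^ 2 ≤ 1 := by nlinarith
    have h3 : 0 ≤ (w x) ^ (-(2 + 4 * a)) := by positivity
    nlinarith
  have hx10 : x 10 ^ 2 ≤ 1 / 144 := by
    have := norm_le_pi_norm x 10
    rw [Real.norm_eq_abs] at this
    rw [← sq_abs]
    nlinarith [abs_nonneg (x 10)]
  have hsum : ∑ i, u i ^ 2 = dS u u + u 10 ^ 2 + u 11 ^ 2 + u 12 ^ 2 := by
    unfold dS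
    simp only [Fin.sum_univ_succ, Fin.sum_univ_zero]
    simp
    ring
  have hS := dS_self_nonneg u
  have hq : (e ^ 2 / 64) * (u 12 ^ 2 / 2) - u 11 ^ 2 / 144 ≤
      K a e (w x) * (th x u * th x u) := by
    have h1 : u 12 ^ 2 / 2 - x 10 ^ 2 * u 11 ^ 2 ≤ th x u * th x u := by
      unfold th
      nlinarith [sq_nonneg (u 12 - 2 * (x 10 * u 11))]
    have hK0 : 0 ≤ K a e (w x) := le_trans (by positivity) hK
    calc (e ^ 2 / 64) * (u 12 ^ 2 / 2) - u 11 ^ 2 / 144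
        ≤ K a e (w x) * (u 12 ^ 2 / 2) - K a e (w x) * (x 10 ^ 2 * u 11 ^ 2) := by
          have h2 : (e ^ 2 / 64) * (u 12 ^ 2 / 2) ≤ K a e (w x) * (u 12 ^ 2 / 2) :=
            mul_le_mul_of_nonneg_right hK (by positivity)
          have h3 : K a e (w x) * (x 10 ^ 2 * u 11 ^ 2) ≤ 1 * (1 / 144 * u 11 ^ 2) :=
            mul_le_mul hK1 (mul_le_mul_of_nonneg_right hx10 (sq_nonneg _)) (by positivity)
              zero_le_one
          linarith
      _ = K a e (w x) * (u 12 ^ 2 / 2 - x 10 ^ 2 * u 11 ^ 2) := by ring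
      _ ≤ _ := mul_le_mul_of_nonneg_left h1 hK0
  have hH' : 1 / 4 * (u 10 * u 10 + u 11 * u 11) ≤ H a (w x) * (u 10 * u 10 + u 11 * u 11) :=
    mul_le_mul_of_nonneg_right hH (add_nonneg (mul_self_nonneg _) (mul_self_nonneg _))
  have hxu : 0 ≤ dS x u * dS x u := mul_self_nonneg _
  have he2 : e ^ 2 ≤ 1 := by nlinarith
  unfold gf
  rw [hsum]
  have p1 : e ^ 2 / 128 * dS u u ≤ dS u u := by nlinarith
  have p2 : e ^ 2 / 128 * u 10 ^ 2 ≤ 1 / 4 * u 10 ^ 2 := by nlinarith [sq_nonneg (u 10)]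
  have p3 : e ^ 2 / 128 * u 11 ^ 2 ≤ 1 / 4 * u 11 ^ 2 - u 11 ^ 2 / 144 := by
    nlinarith [sq_nonneg (u 11)]
  nlinarith

theorem form_ge (k : ℕ) {a e : ℝ} (ha : 0 ≤ a) (ha1 : a ≤ 1) (he : 0 < e) (he1 : e ≤ 1)
    (x u : Fin (13 + k) → ℝ) (hx : ‖x‖ ≤ 1 / 12) :
    e ^ 2 / 128 * ∑ i, u i ^ 2 ≤ (prodM k (G a e he.ne')).form x u u := by
  rw [prodM_form, G_form, Fin.sum_univ_add, mul_add]
  have hp : ‖pr k x‖ ≤ 1 / 12 := by
    refine le_trans ?_ hx
    rw [pi_norm_le_iff_of_nonneg (norm_nonneg _)]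
    intro i
    rw [pr_apply]
    exact norm_le_pi_norm x _
  have h1 := gf_ge ha ha1 he he1 (pr k x) (pr k u) hp
  simp only [pr_apply] at h1
  refine add_le_add h1 ?_
  have h2 : 0 ≤ ∑ j : Fin k, u (Fin.natAdd 13 j) ^ 2 := Finset.sum_nonneg fun _ _ => sq_nonneg _
  have h3 : ∑ j : Fin k, qr (m := 13) k u j * qr (m := 13) k u j =
      ∑ j : Fin k, u (Fin.natAdd 13 j) ^ 2 := by
    refine Finset.sum_congr rfl fun j _ => ?_
    rw [qr_apply]; ring
  rw [h3]
  have he2 : e ^ 2 ≤ 1 := by nlinarith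
  nlinarith

theorem form_le (k : ℕ) {a e : ℝ} (ha : 0 ≤ a) (he : 0 < e) (he1 : e ≤ 1)
    (x u : Fin (13 + k) → ℝ) (hx : ‖x‖ ≤ 1 / 12) :
    (prodM k (G a e he.ne')).form x u u ≤ (4 + k : ℝ) ^ 2 * ‖u‖ ^ 2 := by
  rw [prodM_form, G_form]
  have hp : ‖pr k x‖ ≤ 1 / 12 := by
    refine le_trans ?_ hx
    rw [pi_norm_le_iff_of_nonneg (norm_nonneg _)]
    intro i
    rw [pr_apply]
    exact norm_le_pi_norm x _
  have hpu : ‖pr k u‖ ≤ ‖u‖ := by
    rw [pi_norm_le_iff_of_nonneg (norm_nonneg _)]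
    intro i
    rw [pr_apply]
    exact norm_le_pi_norm u _
  have h1 := gf_le (a := a) (e := e) ha (pr k x) (pr k u)
  have hKK : KK e (pr k x) ≤ 16 := by
    unfold KK
    have h2 := dS_le_norm (pr k x)
    have h3 : |pr k x 10| ≤ 1 / 12 := by
      have := norm_le_pi_norm (pr k x) 10
      rw [Real.norm_eq_abs] at this
      exact this.trans hp
    have h4 : dS (pr k x) (pr k x) ≤ 10 / 144 := by nlinarith [norm_nonneg (pr k x)]
    have h5 : (1 + |pr k x 10|) ^ 2 ≤ 2 := by nlinarith [abs_nonneg (pr k x 10)]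
    have h6 : e ^ 2 ≤ 1 := by nlinarith
    have h7 : e ^ 2 * (1 + |pr k x 10|) ^ 2 ≤ 1 * 2 :=
      mul_le_mul h6 h5 (by positivity) zero_le_one
    linarith
  have h8 : gf a e (pr k x) (pr k u) (pr k u) ≤ 16 * ‖u‖ ^ 2 := by
    refine h1.trans ?_
    have := norm_nonneg (pr k u)
    gcongr
  have h9 : ∑ j : Fin k, qr (m := 13) k u j * qr (m := 13) k u j ≤ k * ‖u‖ ^ 2 := by
    calc ∑ j : Fin k, qr (m := 13) k u j * qr (m := 13) k u j ≤ ∑ _j : Fin k, ‖u‖ ^ 2 := by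
          refine Finset.sum_le_sum fun j _ => ?_
          rw [qr_apply]
          have := norm_le_pi_norm u (Fin.natAdd 13 j)
          rw [Real.norm_eq_abs] at this
          have h2 : u (Fin.natAdd 13 j) * u (Fin.natAdd 13 j) = |u (Fin.natAdd 13 j)| ^ 2 := by
            rw [sq_abs]; ring
          rw [h2]
          exact pow_le_pow_left₀ (abs_nonneg _) this 2
      _ = k * ‖u‖ ^ 2 := by simp
  have hk : (0 : ℝ) ≤ k := Nat.cast_nonneg k
  have h10 : (16 + k : ℝ) ≤ (4 + k : ℝ) ^ 2 := by nlinarith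
  calc gf a e (pr k x) (pr k u) (pr k u) + ∑ j : Fin k, qr (m := 13) k u j * qr (m := 13) k u j
      ≤ (16 + k : ℝ) * ‖u‖ ^ 2 := by linarith
    _ ≤ _ := mul_le_mul_of_nonneg_right h10 (sq_nonneg _)

/-- the box of the discrete Heisenberg group -/
noncomputable def box (R : ℤ) : Finset Z3 :=
  Icc (-(2 * R + 1)) (2 * R + 1) ×ˢ (Icc (-(2 * R + 1)) (2 * R + 1) ×ˢ
    Icc (-(2 * R ^ 2 + 2 * R + 1)) (2 * R ^ 2 + 2 * R + 1))

theorem mem_box (R : ℤ) (p : Z3) : p ∈ box R ↔ |p.1| ≤ 2 * R + 1 ∧ |p.2.1| ≤ 2 * R + 1 ∧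
    |p.2.2| ≤ 2 * R ^ 2 + 2 * R + 1 := by
  unfold box
  rw [mem_product, mem_product, mem_Icc, mem_Icc, mem_Icc, abs_le, abs_le, abs_le]

/-- the point of the orbit -/
noncomputable def pk (k : ℕ) (p : Z3) : Fin (13 + k) → ℝ := il k (pt p.1 p.2.1 p.2.2)

theorem dist_pk (k : ℕ) (a e : ℝ) (he : e ≠ 0) (p q : Z3) :
    (prodM k (G a e he)).dist (pk k p) (pk k q) =
      (G a e he).dist (pt p.1 p.2.1 p.2.2) (pt q.1 q.2.1 q.2.2) :=
  dist_il k _ (speedCont_G a e he) _ _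

theorem dist_zero (a e : ℝ) (he : 0 < e) (R : ℤ) (hR : 1 ≤ R) (p : Z3) (hp : p ∈ box R) :
    (G a e he.ne').dist (pt 0 0 0) (pt p.1 p.2.1 p.2.2) ≤ 42 * R := by
  have hg := speedCont_G a e he.ne'
  set h : Z3 → ℝ := fun p => (G a e he.ne').dist (pt 0 0 0) (pt p.1 p.2.1 p.2.2) with hh
  have step : ∀ x y : V, (G a e he.ne').dist x y ≤ 1 →
      ‖(G a e he.ne').dist (pt 0 0 0) y - (G a e he.ne').dist (pt 0 0 0) x‖ ≤ 1 := by
    intro x y hxy
    rw [Real.norm_eq_abs, abs_le]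
    have t1 := dist_triangle' _ hg (pt 0 0 0) x y
    have t2 := dist_triangle' _ hg (pt 0 0 0) y x
    rw [dist_symm _ y x] at t2
    constructor <;> linarith
  have ha : ∀ p, ‖h (siga p) - h p‖ ≤ 1 := by
    intro p
    apply step
    have := dist_a (a := a) he p.1 p.2.1 p.2.2
    simpa [siga] using this
  have hb : ∀ p, ‖h (sigb p) - h p‖ ≤ 1 := by
    intro p
    apply step
    have := dist_b (a := a) he p.1 p.2.1 p.2.2
    simpa [sigb] using this
  obtain ⟨h1, h2, h3⟩ := (mem_box R p).1 hp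
  have main := growth ha hb zero_le_one R hR p.1 p.2.1 p.2.2 h1 h2 h3
  have h0 : h 0 = 0 := by
    simp only [hh]
    have : ((0 : Z3).1 : ℝ) = 0 := by simp
    have e2 : ((0 : Z3).2.1 : ℝ) = 0 := by simp
    have e3 : ((0 : Z3).2.2 : ℝ) = 0 := by simp
    rw [this, e2, e3]
    exact dist_self' _ _
  rw [h0, sub_zero, Real.norm_eq_abs, mul_one] at main
  exact (le_abs_self _).trans main

/-- The finite set of bounded diameter without embeddings of small distortion. -/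
theorem obstruction (k n : ℕ) (hn : 7 ≤ n) (he : (0 : ℝ) < 1 / (n : ℝ)) :
    ∃ A : Set (Fin (13 + k) → ℝ), A.Finite ∧ (0 : Fin (13 + k) → ℝ) ∈ A ∧
      (∀ x ∈ A, ∀ y ∈ A, (prodM k (G (1 / (n : ℝ) ^ 2) (1 / (n : ℝ)) he.ne')).dist x y ≤
        50000 * n * 2 ^ (n ^ 2)) ∧
      ∀ (E : Type) [NormedAddCommGroup E] [InnerProductSpace ℝ E]
        (f : (Fin (13 + k) → ℝ) → E) (α β : ℝ), 0 < α →
        (∀ x ∈ A, ∀ y ∈ A,
          α * (prodM k (G (1 / (n : ℝ) ^ 2) (1 / (n : ℝ)) he.ne')).dist x y ≤ ‖f x - f y‖ ∧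
          ‖f x - f y‖ ≤ β * (prodM k (G (1 / (n : ℝ) ^ 2) (1 / (n : ℝ)) he.ne')).dist x y) →
        (n : ℝ) ≤ 144 * 40000000000 * (β / α) ^ 2 := by
  have hn0 : (0 : ℝ) < n := by positivity
  set a : ℝ := 1 / (n : ℝ) ^ 2 with hadef
  set e : ℝ := 1 / (n : ℝ) with hedef
  -- the first scale
  obtain ⟨j0, hj0, hj0'⟩ : ∃ j0 : ℕ, 36 * n < 2 ^ j0 ∧ 2 ^ j0 ≤ 72 * n := by
    have hex : ∃ j : ℕ, 36 * n < 2 ^ j := ⟨36 * n, Nat.lt_two_pow_self⟩
    classical
    refine ⟨Nat.find hex, Nat.find_spec hex, ?_⟩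
    have hne : Nat.find hex ≠ 0 := by
      intro h0
      have := Nat.find_spec hex
      rw [h0] at this
      omega
    have h1 := Nat.find_min hex (Nat.sub_one_lt hne)
    push Not at h1
    obtain ⟨k, hk⟩ := Nat.exists_eq_succ_of_ne_zero hne
    rw [hk] at h1 ⊢
    rw [Nat.succ_sub_one] at h1
    rw [Nat.succ_eq_add_one, pow_succ]
    omega
  set J := j0 + n ^ 2 with hJ
  set S : ℤ := 2 ^ J with hS
  have hS1 : 1 ≤ S := by
    rw [hS]
    exact one_le_pow₀ (by norm_num)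
  set R : ℤ := 4 * S with hR
  have hR1 : 4 ≤ R := by omega
  have hSr : (S : ℝ) ≤ 72 * n * 2 ^ (n ^ 2) := by
    have h1 : (2 : ℝ) ^ j0 ≤ 72 * n := by exact_mod_cast hj0'
    rw [hS]
    push_cast
    rw [hJ, pow_add]
    gcongr
  refine ⟨pk k '' (box (2 * R) : Set Z3), (Finset.finite_toSet _).image _, ?_, ?_, ?_⟩
  · refine ⟨0, ?_, ?_⟩
    · rw [mem_coe, mem_box]
      refine ⟨?_, ?_, ?_⟩
      · show |(0 : ℤ)| ≤ _
        rw [abs_zero]; omega
      · show |(0 : ℤ)| ≤ _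
        rw [abs_zero]; omega
      · show |(0 : ℤ)| ≤ _
        rw [abs_zero]; positivity
    · unfold pk pt
      simp
  · rintro x ⟨p, hp, rfl⟩ y ⟨q, hq, rfl⟩
    rw [dist_pk]
    have h1 := dist_zero a e he (2 * R) (by omega) p hp
    have h2 := dist_zero a e he (2 * R) (by omega) q hq
    have h3 := dist_triangle' _ (speedCont_G a e he.ne') (pt p.1 p.2.1 p.2.2) (pt 0 0 0)
      (pt q.1 q.2.1 q.2.2)
    rw [dist_symm _ (pt p.1 p.2.1 p.2.2) (pt 0 0 0)] at h3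
    have h4 : ((2 * R : ℤ) : ℝ) = 8 * S := by rw [hR]; push_cast; ring
    rw [h4] at h1 h2
    calc _ ≤ 42 * (8 * (S : ℝ)) + 42 * (8 * (S : ℝ)) := by linarith
      _ = 672 * (S : ℝ) := by ring
      _ ≤ 672 * (72 * n * 2 ^ (n ^ 2)) := by gcongr
      _ ≤ 50000 * n * 2 ^ (n ^ 2) := by
        have : 0 < (n : ℝ) * 2 ^ (n ^ 2) := by positivity
        nlinarith
  · intro E _ _ f α β hα hf
    have sub1 : ∀ p : Z3, |p.1| ≤ 2 * R + 1 → |p.2.1| ≤ 2 * R + 1 →
        |p.2.2| ≤ 2 * R ^ 2 + 2 * R + 1 → p ∈ box (2 * R) ∧ siga p ∈ box (2 * R) ∧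
        sigb p ∈ box (2 * R) := by
      intro p h1 h2 h3
      have hRR : 4 * R ≤ R ^ 2 := by nlinarith
      refine ⟨(mem_box _ _).2 ⟨by omega, by omega, by nlinarith⟩,
        (mem_box _ _).2 ⟨?_, by simp only [siga]; omega, by simp only [siga]; nlinarith⟩,
        (mem_box _ _).2 ⟨by simp only [sigb]; omega, ?_, ?_⟩⟩
      · simp only [siga]
        have := abs_add_le p.1 1
        rw [abs_one] at this
        omega
      · simp only [sigb]
        have := abs_add_le p.2.1 1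
        rw [abs_one] at this
        omega
      · simp only [sigb]
        have := abs_add_le p.2.2 p.1
        nlinarith
    have hβ0 : ∀ p q : Z3, p ∈ box (2 * R) → q ∈ box (2 * R) →
        α * (G a e he.ne').dist (pt p.1 p.2.1 p.2.2) (pt q.1 q.2.1 q.2.2) ≤
          ‖f (pk k q) - f (pk k p)‖ ∧
        ‖f (pk k q) - f (pk k p)‖ ≤
          β * (G a e he.ne').dist (pt p.1 p.2.1 p.2.2) (pt q.1 q.2.1 q.2.2) := by
      intro p q hp hq
      have := hf (pk k p) ⟨p, hp, rfl⟩ (pk k q) ⟨q, hq, rfl⟩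
      rw [dist_pk, norm_sub_rev] at this
      exact this
    have hβ : 0 ≤ β := by
      by_contra hneg
      push Not at hneg
      have h0 : (0 : Z3) ∈ box (2 * R) ∧ siga 0 ∈ box (2 * R) ∧ sigb 0 ∈ box (2 * R) := by
        apply sub1
        · show |(0 : ℤ)| ≤ _
          rw [abs_zero]; omega
        · show |(0 : ℤ)| ≤ _
          rw [abs_zero]; omega
        · show |(0 : ℤ)| ≤ _
          rw [abs_zero]; positivity
      -- distances of distinct points of the orbit: the point `c ^ (2 ^ j0)`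
      have hk1 : 36 * (n : ℝ) < 2 ^ j0 := by exact_mod_cast hj0
      have hk2 : (2 : ℝ) ^ j0 ≤ 288 * n * 2 ^ (n ^ 2) := by
        have h1 : (2 : ℝ) ^ j0 ≤ 72 * n := by exact_mod_cast hj0'
        have h2 : (1 : ℝ) ≤ 2 ^ (n ^ 2) := one_le_pow₀ (by norm_num)
        nlinarith
      have hd := dist_c n hn e he rfl 0 0 0 (2 ^ j0) hk1 hk2
      have hmem : ((0, 0, 2 ^ j0) : Z3) ∈ box (2 * R) := by
        rw [mem_box]
        refine ⟨by simp; omega, by simp; omega, ?_⟩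
        show |(2 : ℤ) ^ j0| ≤ _
        rw [abs_of_pos (by positivity)]
        have h1 : (2 : ℤ) ^ j0 ≤ S := by
          rw [hS]
          exact pow_le_pow_right₀ (by norm_num) (by omega)
        nlinarith
      have h2 := (hβ0 0 (0, 0, 2 ^ j0) h0.1 hmem)
      have h3 := h2.1.trans h2.2
      have h4 : (0 : ℝ) < (G a e he.ne').dist (pt ((0 : Z3).1) ((0 : Z3).2.1) ((0 : Z3).2.2))
          (pt (((0, 0, 2 ^ j0) : Z3).1) (((0, 0, 2 ^ j0) : Z3).2.1)
            (((0, 0, 2 ^ j0) : Z3).2.2)) := by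
        have h5 : 0 < (2 : ℝ) ^ j0 / (144 * n) := by positivity
        have h6 := lt_of_lt_of_le h5 hd
        have h7 := dist_nonneg' (G a e he.ne') (pt 0 0 0) (pt 0 0 (0 + 2 ^ j0))
        have h8 : 0 < (G a e he.ne').dist (pt 0 0 0) (pt 0 0 (0 + 2 ^ j0)) := by
          rcases h7.eq_or_lt with h | h
          · rw [← h] at h6; norm_num at h6
          · exact h
        simpa using h8
      nlinarith
    set F : Z3 → E := fun p => f (pk k p) with hF
    have ha' : ∀ p : Z3, |p.1| ≤ 2 * R + 1 → |p.2.1| ≤ 2 * R + 1 →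
        |p.2.2| ≤ 2 * R ^ 2 + 2 * R + 1 → ‖F (siga p) - F p‖ ≤ β := by
      intro p h1 h2 h3
      obtain ⟨m1, m2, m3⟩ := sub1 p h1 h2 h3
      refine (hβ0 p _ m1 m2).2.trans ?_
      have := dist_a (a := a) he p.1 p.2.1 p.2.2
      have h4 : (G a e he.ne').dist (pt p.1 p.2.1 p.2.2)
          (pt (siga p).1 (siga p).2.1 (siga p).2.2) ≤ 1 := by simpa [siga] using this
      nlinarith
    have hb' : ∀ p : Z3, |p.1| ≤ 2 * R + 1 → |p.2.1| ≤ 2 * R + 1 →
        |p.2.2| ≤ 2 * R ^ 2 + 2 * R + 1 → ‖F (sigb p) - F p‖ ≤ β := by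
      intro p h1 h2 h3
      obtain ⟨m1, m2, m3⟩ := sub1 p h1 h2 h3
      refine (hβ0 p _ m1 m3).2.trans ?_
      have := dist_b (a := a) he p.1 p.2.1 p.2.2
      have h4 : (G a e he.ne').dist (pt p.1 p.2.1 p.2.2)
          (pt (sigb p).1 (sigb p).2.1 (sigb p).2.2) ≤ 1 := by simpa [sigb] using this
      nlinarith
    have hgr : ∀ p : Z3, |p.1| ≤ 2 * R + 1 → |p.2.1| ≤ 2 * R + 1 →
        |p.2.2| ≤ 2 * R ^ 2 + 2 * R + 1 → ‖F p - F 0‖ ≤ 42 * R * β := by
      intro p h1 h2 h3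
      obtain ⟨m1, m2, m3⟩ := sub1 p h1 h2 h3
      obtain ⟨z1, z2, z3⟩ := sub1 0 (by show |(0 : ℤ)| ≤ _; rw [abs_zero]; omega)
        (by show |(0 : ℤ)| ≤ _; rw [abs_zero]; omega)
        (by show |(0 : ℤ)| ≤ _; rw [abs_zero]; positivity)
      refine (hβ0 0 p z1 m1).2.trans ?_
      have h4 := dist_zero a e he R (by omega) p ((mem_box R p).2 ⟨h1, h2, h3⟩)
      have h5 : (G a e he.ne').dist (pt (0 : Z3).1 (0 : Z3).2.1 (0 : Z3).2.2)
          (pt p.1 p.2.1 p.2.2) ≤ 42 * R := by simpa using h4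
      nlinarith
    have hlow : ∀ j < J, ∀ p : Z3, |p.1| ≤ 2 ^ J → |p.2.1| ≤ 2 ^ J →
        |p.2.2| ≤ 4 * (2 ^ J) ^ 2 → (if j0 ≤ j then α ^ 2 * (2 ^ j / (144 * n)) else 0) ≤
        ‖F (sigc (2 ^ j) p) - F p‖ ^ 2 := by
      intro j hj p b1 b2 b3
      rw [← hS] at b1 b2 b3
      split_ifs with hjj
      · have hk1 : 36 * (n : ℝ) < 2 ^ j := by
          have h1 : 36 * (n : ℝ) < 2 ^ j0 := by exact_mod_cast hj0
          exact h1.trans_le (pow_le_pow_right₀ (by norm_num) hjj)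
        have hk2 : (2 : ℝ) ^ j ≤ 288 * n * 2 ^ (n ^ 2) := by
          have h1 : (2 : ℝ) ^ j0 ≤ 72 * n := by exact_mod_cast hj0'
          calc (2 : ℝ) ^ j ≤ 2 ^ (j0 + n ^ 2) := pow_le_pow_right₀ (by norm_num) hj.le
            _ = 2 ^ j0 * 2 ^ (n ^ 2) := pow_add _ _ _
            _ ≤ 72 * n * 2 ^ (n ^ 2) := by gcongr
            _ ≤ 288 * n * 2 ^ (n ^ 2) := by
              apply mul_le_mul_of_nonneg_right _ (by positivity)
              linarith
        have hd := dist_c n hn e he rfl p.1 p.2.1 p.2.2 (2 ^ j) hk1 hk2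
        have m1 : p ∈ box (2 * R) := (mem_box _ _).2 ⟨by omega, by omega, by nlinarith⟩
        have m2 : sigc (2 ^ j) p ∈ box (2 * R) := by
          rw [mem_box]
          refine ⟨by simp only [sigc]; omega, by simp only [sigc]; omega, ?_⟩
          simp only [sigc]
          have h1 := abs_add_le p.2.2 (2 ^ j)
          rw [abs_of_pos (by positivity : (0 : ℤ) < 2 ^ j)] at h1
          have h2 : (2 : ℤ) ^ j ≤ S := by
            rw [hS]
            exact pow_le_pow_right₀ (by norm_num) hj.le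
          nlinarith
        have hf1 := (hβ0 p _ m1 m2).1
        have h0 := dist_nonneg' (G a e he.ne') (pt p.1 p.2.1 p.2.2)
          (pt p.1 p.2.1 (p.2.2 + 2 ^ j))
        have e1 : (G a e he.ne').dist (pt p.1 p.2.1 p.2.2)
            (pt (sigc (2 ^ j) p).1 (sigc (2 ^ j) p).2.1 (sigc (2 ^ j) p).2.2) =
            (G a e he.ne').dist (pt p.1 p.2.1 p.2.2) (pt p.1 p.2.1 (p.2.2 + 2 ^ j)) := by
          simp [sigc]
        rw [e1] at hf1
        calc α ^ 2 * (2 ^ j / (144 * n)) ≤ α ^ 2 * _ := mul_le_mul_of_nonneg_left hd (sq_nonneg α)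
          _ = (α * (G a e he.ne').dist (pt p.1 p.2.1 p.2.2)
            (pt p.1 p.2.1 (p.2.2 + 2 ^ j))) ^ 2 := by ring
          _ ≤ _ := pow_le_pow_left₀ (by positivity) hf1 2
      · positivity
    have main := heisLoc F J R (by rw [hR, hS]) ha' hb' hgr _ hlow
    have hsum : ∑ j ∈ range J, (1 / 2 : ℝ) ^ j *
        (if j0 ≤ j then α ^ 2 * (2 ^ j / (144 * n)) else 0) = α ^ 2 * n / 144 := by
      rw [hJ, sum_range_add]
      have h1 : ∑ j ∈ range j0, (1 / 2 : ℝ) ^ j *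
          (if j0 ≤ j then α ^ 2 * (2 ^ j / (144 * n)) else 0) = 0 := by
        apply Finset.sum_eq_zero
        intro j hj
        rw [if_neg (by have := mem_range.mp hj; omega), mul_zero]
      have h2 : ∀ i ∈ range (n ^ 2), (1 / 2 : ℝ) ^ (j0 + i) *
          (if j0 ≤ j0 + i then α ^ 2 * (2 ^ (j0 + i) / (144 * n)) else 0) =
          α ^ 2 / (144 * n) := by
        intro i _
        rw [if_pos (by omega), one_div, inv_pow]
        have : (2 : ℝ) ^ (j0 + i) ≠ 0 := by positivity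
        field_simp
      rw [h1, Finset.sum_congr rfl h2, Finset.sum_const, card_range, nsmul_eq_mul, zero_add]
      push_cast
      field_simp
    rw [hsum] at main
    have h3 : (n : ℝ) / 144 ≤ 40000000000 * (β / α) ^ 2 := by
      rw [div_pow, ← mul_div_assoc, le_div_iff₀ (by positivity)]
      linarith
    linarith

end Run7.h71.BL
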